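import Mathlib
import Pool.Agent.Lib.MP_84c3e0_co.Final

namespace Pool.Agent.Results.MP_84c3e0_co.Classification

/-- The vertex-disjoint union of cycles of lengths `n 0, …, n (t-1)`: the vertices are the pairs
`(i, j)` with `j < n i`, and `(i, j)` is joined to `(i, j + 1 mod n i)`. -/
def cyclesGraph {t : ℕ} (n : Fin t → ℕ) : SimpleGraph (Σ i : Fin t, Fin (n i)) :=
  SimpleGraph.fromRel fun u v => u.1 = v.1 ∧ ((u.2 : ℕ) + 1) % n u.1 = v.2

/-- `f` is a graceful labeling of `G`: injective into `[0, q]`, `q` the number of edges, with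
pairwise distinct edge values `|f u - f v|`. -/
def IsGraceful {V : Type} (G : SimpleGraph V) (f : V → ℕ) : Prop :=
  Function.Injective f ∧ (∀ v, f v ≤ G.edgeSet.ncard) ∧
    ∀ u v u' v', G.Adj u v → G.Adj u' v' →
      |(f u : ℤ) - f v| = |(f u' : ℤ) - f v'| → s(u, v) = s(u', v')

/-- `f` is an alpha-labeling of `G`. -/
def IsAlphaLabeling {V : Type} (G : SimpleGraph V) (f : V → ℕ) : Prop :=
  IsGraceful G f ∧ ∃ k, k < G.edgeSet.ncard ∧
    ∀ u v, G.Adj u v → min (f u) (f v) ≤ k ∧ k < max (f u) (f v)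

theorem result (t : ℕ) (ht : 0 < t) (n : Fin t → ℕ) (hn : ∀ i, 3 ≤ n i) :
    (∃ f, IsAlphaLabeling (cyclesGraph n) f) ↔
      (∀ i, Even (n i)) ∧ 4 ∣ ∑ i, n i ∧ ¬ (t = 3 ∧ ∀ i, n i = 4) := by
  rw [← Pool.Agent.Lib.MP84.alphaN_iff ht n hn]
  refine exists_congr fun f => ?_
  rw [← Pool.Agent.Lib.MP84.gr_alpha hn f]
  exact ⟨fun h => ⟨h.1.1, h.1.2.1, h.1.2.2, h.2⟩, fun h => ⟨⟨h.1, h.2.1, h.2.2.1⟩, h.2.2.2⟩⟩

end Pool.Agent.Results.MP_84c3e0_co.Classification
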